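import Pool.Agent.H27.KF.Stm

set_option autoImplicit false

namespace Pool.Agent.H59.KF

open Finset MeasureTheory Pool.Agent.K1H88.GT Pool.Agent.H27.KF

theorem t_FEW (h1 : S_REP) (h2 : S_FIN) : S_FEW := by
  intro P hP b K hb hbK β C hβ φ hφ η hη
  have hη' : 0 < η / ((K : ℝ) + 1) := by positivity
  obtain ⟨C1, hC1, hrep⟩ := h1 P hP (η / ((K : ℝ) + 1)) hη'
  have hfin := h2 P (by omega)
  set F : Finset (ℕ × ℕ) := hfin.toFinset with hF
  set K1 : ℕ := ⌈4 * C / |β|⌉₊ with hK1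
  have hβ' : 0 < |β| := abs_pos.mpr hβ
  have hC : 0 ≤ C := (abs_nonneg _).trans (hφ 0)
  set c2 : ℝ := (((K : ℝ) + 1) * 2 ^ K) ^ (η / ((K : ℝ) + 1)) with hc2
  have hc20 : 0 ≤ c2 := by positivity
  refine ⟨(2 * (K1 : ℝ) + 1) * (C1 * c2 + F.card), by positivity, ?_⟩
  intro A B j hj hjA hAB
  have hB : 1 ≤ B := by omega
  have hBR : (1 : ℝ) ≤ B := by exact_mod_cast hB
  set Y : ℕ := K * (B + 1) ^ K + 1 with hY
  have hY1 : 1 ≤ Y := by omega
  set M : ℝ := C1 * (Y : ℝ) ^ (η / ((K : ℝ) + 1)) + F.card with hM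
  have hM0 : 0 ≤ M := by positivity
  -- the size of `Y`
  have hYr : (Y : ℝ) ≤ ((K : ℝ) + 1) * 2 ^ K * (B : ℝ) ^ K := by
    have e1 : ((B : ℝ) + 1) ^ K ≤ (2 * B) ^ K := pow_le_pow_left₀ (by positivity) (by linarith) K
    have e2 : (1 : ℝ) ≤ (2 * B) ^ K := one_le_pow₀ (by linarith)
    have e3 : (Y : ℝ) = K * ((B : ℝ) + 1) ^ K + 1 := by
      rw [hY]; push_cast; ring
    rw [e3, mul_assoc, ← mul_pow]
    have e4 : (K : ℝ) * ((B : ℝ) + 1) ^ K ≤ K * (2 * B) ^ K :=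
      mul_le_mul_of_nonneg_left e1 (by positivity)
    linarith
  have hYp : (Y : ℝ) ^ (η / ((K : ℝ) + 1)) ≤ c2 * (B : ℝ) ^ η := by
    have e1 : (Y : ℝ) ^ (η / ((K : ℝ) + 1)) ≤
        (((K : ℝ) + 1) * 2 ^ K * (B : ℝ) ^ K) ^ (η / ((K : ℝ) + 1)) :=
      Real.rpow_le_rpow (by positivity) hYr hη'.le
    refine e1.trans ?_
    rw [Real.mul_rpow (by positivity) (by positivity)]
    refine mul_le_mul_of_nonneg_left ?_ hc20
    rw [← Real.rpow_natCast, ← Real.rpow_mul (by positivity)]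
    apply Real.rpow_le_rpow_of_exponent_le hBR
    rw [mul_div_assoc', div_le_iff₀ (by positivity)]
    nlinarith
  have hMle : M ≤ (C1 * c2 + F.card) * (B : ℝ) ^ η := by
    have e1 : C1 * (Y : ℝ) ^ (η / ((K : ℝ) + 1)) ≤ C1 * (c2 * (B : ℝ) ^ η) :=
      mul_le_mul_of_nonneg_left hYp hC1
    have e2 : (1 : ℝ) ≤ (B : ℝ) ^ η := Real.one_le_rpow hBR hη.le
    have e3 : (F.card : ℝ) ≤ F.card * (B : ℝ) ^ η := by
      have : (0 : ℝ) ≤ F.card := by positivity
      nlinarith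
    rw [hM]
    nlinarith
  -- the map
  let D : (ℕ × ℕ) × (ℕ × ℕ) → ℤ := fun q =>
    (P.eval (b q.1.1 : ℤ) - P.eval (b (q.1.1 - q.1.2) : ℤ)) -
      (P.eval (b q.2.1 : ℤ) - P.eval (b (q.2.1 - q.2.2) : ℤ))
  let T : Finset ((ℕ × ℕ) × ℤ) := (Ioc A B ×ˢ Icc 1 j) ×ˢ Icc (-(K1 : ℤ)) K1
  have hmaps : ∀ q ∈ solP φ A B j, (q.1, D q) ∈ T := by
    intro q hq
    unfold solP quad at hq
    rw [mem_filter, mem_product] at hq
    obtain ⟨⟨hq1, hq2⟩, hq3⟩ := hq
    rw [mem_product]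
    refine ⟨hq1, ?_⟩
    have hD : |(D q : ℝ)| ≤ 4 * C / |β| := by
      rw [le_div_iff₀ hβ']
      have e1 := hφ q.1.1
      have e2 := hφ (q.1.1 - q.1.2)
      have e3 := hφ q.2.1
      have e4 := hφ (q.2.1 - q.2.2)
      have e5 : (φ q.1.1 : ℝ) - φ (q.1.1 - q.1.2) = (φ q.2.1 : ℝ) - φ (q.2.1 - q.2.2) := by
        exact_mod_cast hq3
      rw [mul_comm, ← abs_mul]
      rw [abs_le] at e1 e2 e3 e4 ⊢
      have e6 : β * (D q : ℝ) = (β * ((P.eval (b q.1.1 : ℤ) : ℤ) : ℝ) -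
          β * ((P.eval (b (q.1.1 - q.1.2) : ℤ) : ℤ) : ℝ)) -
          (β * ((P.eval (b q.2.1 : ℤ) : ℤ) : ℝ) - β * ((P.eval (b (q.2.1 - q.2.2) : ℤ) : ℤ) : ℝ)) := by
        simp only [D]
        push_cast
        ring
      rw [e6]
      constructor <;> linarith [e1.1, e1.2, e2.1, e2.2, e3.1, e3.2, e4.1, e4.2]
    have hD2 : |(D q : ℝ)| ≤ (K1 : ℝ) := hD.trans (Nat.le_ceil _)
    have hD3 : |D q| ≤ (K1 : ℤ) := by exact_mod_cast hD2
    rw [mem_Icc]
    exact abs_le.mp hD3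
  have hcard := Finset.card_eq_sum_card_fiberwise (f := fun q => (q.1, D q)) (t := T)
    (s := solP φ A B j) (fun q hq => hmaps q hq)
  -- the fibres
  have hfib : ∀ x ∈ T, (((solP φ A B j).filter (fun q => (q.1, D q) = x)).card : ℝ) ≤ M := by
    rintro ⟨x, k⟩ _
    set d : ℤ := P.eval (b x.1 : ℤ) - P.eval (b (x.1 - x.2) : ℤ) - k with hd
    let g : (ℕ × ℕ) × (ℕ × ℕ) → ℕ × ℕ := fun q => (b q.2.1, b (q.2.1 - q.2.2))
    have hginj : Set.InjOn g ((solP φ A B j).filter (fun q => (q.1, D q) = (x, k)) : Finset _) := by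
      intro q hq q' hq' hgg
      rw [Finset.mem_coe, mem_filter] at hq hq'
      obtain ⟨hq, hqx⟩ := hq
      obtain ⟨hq', hqx'⟩ := hq'
      unfold solP quad at hq hq'
      rw [mem_filter, mem_product, mem_product, mem_product, mem_Ioc, mem_Icc, mem_Ioc, mem_Icc] at hq hq'
      have e1 : q.1 = q'.1 := (congrArg Prod.fst hqx).trans (congrArg Prod.fst hqx').symm
      have e2 : q.2.1 = q'.2.1 := hb (congrArg Prod.fst hgg)
      have e3 : q.2.1 - q.2.2 = q'.2.1 - q'.2.2 := hb (congrArg Prod.snd hgg)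
      have e4 : q.2.2 = q'.2.2 := by
        have := hq.1.2
        have := hq'.1.2
        omega
      exact Prod.ext e1 (Prod.ext e2 e4)
    rw [← Finset.card_image_of_injOn hginj]
    have hprop : ∀ y ∈ ((solP φ A B j).filter (fun q => (q.1, D q) = (x, k))).image g,
        y.1 ≤ Y ∧ y.2 ≤ Y ∧ y.1 ≠ y.2 ∧ P.eval (y.1 : ℤ) - P.eval (y.2 : ℤ) = d := by
      intro y hy
      rw [mem_image] at hy
      obtain ⟨q, hq, rfl⟩ := hy
      rw [mem_filter] at hq
      obtain ⟨hq, hqx⟩ := hq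
      unfold solP quad at hq
      rw [mem_filter, mem_product, mem_product, mem_product, mem_Ioc, mem_Icc, mem_Ioc, mem_Icc] at hq
      have hle : ∀ n : ℕ, n ≤ B → b n ≤ Y := by
        intro n hn
        have e1 := hbK n
        have e2 : K * (n + 1) ^ K ≤ K * (B + 1) ^ K :=
          Nat.mul_le_mul_left K (Nat.pow_le_pow_left (by omega) K)
        omega
      refine ⟨hle _ (by omega), hle _ (by omega), ?_, ?_⟩
      · intro h
        have := hb h
        have := hq.1.2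
        omega
      · have e1 : q.1 = x := congrArg Prod.fst hqx
        have e2 : D q = k := congrArg Prod.snd hqx
        rw [hd, ← e1, ← e2]
        simp only [D, g]
        ring
    by_cases hd0 : d = 0
    · have hsub : ((solP φ A B j).filter (fun q => (q.1, D q) = (x, k))).image g ⊆ F := by
        intro y hy
        obtain ⟨_, _, h3, h4⟩ := hprop y hy
        rw [hF, Set.Finite.mem_toFinset]
        refine ⟨h3, ?_⟩
        rw [hd0] at h4
        linarith
      have e1 : ((((solP φ A B j).filter (fun q => (q.1, D q) = (x, k))).image g).card : ℝ) ≤ F.card := by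
        exact_mod_cast Finset.card_le_card hsub
      have e2 : 0 ≤ C1 * (Y : ℝ) ^ (η / ((K : ℝ) + 1)) := by positivity
      rw [hM]
      linarith
    · have hsub : ((solP φ A B j).filter (fun q => (q.1, D q) = (x, k))).image g ⊆
          ((range (Y + 1)) ×ˢ (range (Y + 1))).filter (fun q : ℕ × ℕ =>
            P.eval (q.1 : ℤ) - P.eval (q.2 : ℤ) = d) := by
        intro y hy
        obtain ⟨h3, h4, _, h6⟩ := hprop y hy
        rw [mem_filter, mem_product, mem_range, mem_range]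
        exact ⟨⟨by omega, by omega⟩, h6⟩
      have e1 : ((((solP φ A B j).filter (fun q => (q.1, D q) = (x, k))).image g).card : ℝ) ≤
          ((((range (Y + 1)) ×ˢ (range (Y + 1))).filter (fun q : ℕ × ℕ =>
            P.eval (q.1 : ℤ) - P.eval (q.2 : ℤ) = d)).card : ℝ) := by
        exact_mod_cast Finset.card_le_card hsub
      have e2 := hrep Y d hY1 hd0
      have e3 : (0 : ℝ) ≤ F.card := by positivity
      rw [hM]
      linarith
  have hT : (T.card : ℝ) ≤ (B : ℝ) * j * (2 * K1 + 1) := by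
    have e1 : T.card = ((B - A) * j) * (2 * K1 + 1) := by
      simp only [T]
      rw [card_product, card_product, Nat.card_Ioc, Nat.card_Icc, Int.card_Icc]
      have e2 : ((K1 : ℤ) + 1 - -(K1 : ℤ)).toNat = 2 * K1 + 1 := by omega
      rw [e2]
      congr 1
    have e3 : T.card ≤ B * j * (2 * K1 + 1) := by
      rw [e1]
      exact Nat.mul_le_mul_right _ (Nat.mul_le_mul_right _ (Nat.sub_le _ _))
    exact_mod_cast e3
  rw [hcard, Nat.cast_sum]
  calc ∑ x ∈ T, (((solP φ A B j).filter (fun q => (q.1, D q) = x)).card : ℝ)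
      ≤ ∑ x ∈ T, M := Finset.sum_le_sum hfib
    _ = (T.card : ℝ) * M := by rw [Finset.sum_const, nsmul_eq_mul]
    _ ≤ ((B : ℝ) * j * (2 * K1 + 1)) * M := mul_le_mul_of_nonneg_right hT hM0
    _ ≤ ((B : ℝ) * j * (2 * K1 + 1)) * ((C1 * c2 + F.card) * (B : ℝ) ^ η) :=
        mul_le_mul_of_nonneg_left hMle (by positivity)
    _ = (2 * (K1 : ℝ) + 1) * (C1 * c2 + F.card) * (B : ℝ) ^ (1 + η) * j := by
        rw [Real.rpow_add (by linarith), Real.rpow_one]
        ring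

end Pool.Agent.H59.KF
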